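import Pool.Agent.Lib.MP_49fa77_co.H30.Iface
import Mathlib.Combinatorics.SimpleGraph.Acyclic

/-!
# TR: a circulation on a tree vanishes
-/

set_option autoImplicit false

namespace FT58.AS.H37

open Real MeasureTheory Set Metric Filter Relation FT58 FT58.AS

open Classical in
/-- The number of ordered adjacent pairs is twice the number of edges; connected graphs have at
least `|S| - 1` edges. -/
lemma conn_count (S : Finset ℂ) (K : ℂ → ℂ → Prop) (hs : ∀ c q, K c q → K q c)
    (hi : ∀ c, ¬ K c c) (hne : S.Nonempty)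
    (hc : ∀ x ∈ S, ∀ y ∈ S, ReflTransGen (fun c q => c ∈ S ∧ q ∈ S ∧ K c q) x y) :
    2 * S.card ≤ nE S K + 2 := by
  let G : SimpleGraph {x // x ∈ S} :=
    { Adj := fun x y => K x.1 y.1
      symm := ⟨fun x y h => hs _ _ h⟩
      loopless := ⟨fun x h => hi _ h⟩ }
  have hreach : ∀ x y : ℂ, ReflTransGen (fun c q => c ∈ S ∧ q ∈ S ∧ K c q) x y →
      ∀ (hx : x ∈ S) (hy : y ∈ S), G.Reachable ⟨x, hx⟩ ⟨y, hy⟩ := by
    intro x y h
    induction h with
    | refl => intro hx hy; exact SimpleGraph.Reachable.refl _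
    | @tail b c _ hbc ih =>
      intro hx hy
      have h1 := ih hx hbc.1
      exact h1.trans (SimpleGraph.Adj.reachable (show G.Adj ⟨b, hbc.1⟩ ⟨c, hy⟩ from hbc.2.2))
  have hconn : G.Connected := by
    obtain ⟨x0, hx0⟩ := hne
    have : Nonempty {x // x ∈ S} := ⟨⟨x0, hx0⟩⟩
    refine ⟨fun x y => hreach x.1 y.1 (hc _ x.2 _ y.2) x.2 y.2⟩
  have h1 := hconn.card_vert_le_card_edgeSet_add_one
  have h2 := G.sum_degrees_eq_twice_card_edges
  have h3 : ∑ v : {x // x ∈ S}, G.degree v = nE S K := by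
    unfold nE
    rw [Finset.card_filter, Finset.sum_product, ← Finset.sum_coe_sort S]
    refine Finset.sum_congr rfl fun v _ => ?_
    rw [← Finset.sum_coe_sort S, ← SimpleGraph.card_neighborFinset_eq_degree,
      SimpleGraph.neighborFinset_eq_filter, Finset.card_filter]
  have h4 : Nat.card {x // x ∈ S} = S.card := by simp
  have h5 : Nat.card G.edgeSet = G.edgeFinset.card := by
    rw [Nat.card_eq_fintype_card, SimpleGraph.edgeFinset_card]
  omega

open Classical in
theorem tr_st : TrS := by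
  intro S K hs hi hc hn φ hφ hsup hcirc a ha b hb
  by_contra hab
  have hKab : K a b := hsup a ha b hb hab
  have hne : a ≠ b := fun h => hi b (h ▸ hKab)
  set K' : ℂ → ℂ → Prop := fun c q => K c q ∧ ¬ (c = a ∧ q = b) ∧ ¬ (c = b ∧ q = a) with hK'
  set T : ℂ → ℂ → Prop := fun c q => c ∈ S ∧ q ∈ S ∧ K' c q with hT
  have hs' : ∀ c q, K' c q → K' q c := by
    rintro c q ⟨h1, h2, h3⟩
    exact ⟨hs _ _ h1, fun h => h3 ⟨h.2, h.1⟩, fun h => h2 ⟨h.2, h.1⟩⟩
  have hTs : ∀ c q, T c q → T q c := fun c q h => ⟨h.2.1, h.1, hs' _ _ h.2.2⟩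
  have hRs : ∀ x y, ReflTransGen T x y → ReflTransGen T y x := by
    intro x y h
    induction h with
    | refl => exact ReflTransGen.refl
    | tail _ h ih => exact ReflTransGen.head (hTs _ _ h) ih
  -- b is not reachable from a
  have hnb : ¬ ReflTransGen T a b := by
    intro hab'
    have hc' : ∀ x ∈ S, ∀ y ∈ S, ReflTransGen T x y := by
      intro x hx y hy
      have := hc x hx y hy
      induction this with
      | refl => exact ReflTransGen.refl
      | @tail c q _ hcq ih =>
        have h1 := ih hcq.1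
        refine h1.trans ?_
        by_cases h2 : c = a ∧ q = b
        · rw [h2.1, h2.2]; exact hab'
        · by_cases h3 : c = b ∧ q = a
          · rw [h3.1, h3.2]; exact hRs _ _ hab'
          · exact ReflTransGen.single ⟨hcq.1, hcq.2.1, hcq.2.2, h2, h3⟩
    have h1 := conn_count S K' hs' (fun c h => hi c h.1) ⟨a, ha⟩ hc'
    have h2 : nE S K = nE S K' + 2 := by
      unfold nE
      have e1 : (S ×ˢ S).filter (fun x => K x.1 x.2)
          = insert (a, b) (insert (b, a) ((S ×ˢ S).filter (fun x => K' x.1 x.2))) := by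
        ext ⟨c, q⟩
        simp only [Finset.mem_filter, Finset.mem_product, Finset.mem_insert, Prod.mk.injEq, hK']
        constructor
        · rintro ⟨h1, h2⟩
          by_cases h3 : c = a ∧ q = b
          · exact Or.inl h3
          · by_cases h4 : c = b ∧ q = a
            · exact Or.inr (Or.inl h4)
            · exact Or.inr (Or.inr ⟨h1, h2, h3, h4⟩)
        · rintro (⟨rfl, rfl⟩ | ⟨rfl, rfl⟩ | h)
          · exact ⟨⟨ha, hb⟩, hKab⟩
          · exact ⟨⟨hb, ha⟩, hs _ _ hKab⟩
          · exact ⟨h.1, h.2.1⟩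
      have n1 : (b, a) ∉ (S ×ˢ S).filter (fun x => K' x.1 x.2) := by
        intro h
        exact (Finset.mem_filter.1 h).2.2.2 ⟨rfl, rfl⟩
      have n2 : (a, b) ∉ insert (b, a) ((S ×ˢ S).filter (fun x => K' x.1 x.2)) := by
        intro h
        rcases Finset.mem_insert.1 h with h | h
        · exact hne (congrArg Prod.fst h)
        · exact (Finset.mem_filter.1 h).2.2.1 ⟨rfl, rfl⟩
      rw [e1, Finset.card_insert_of_notMem n2, Finset.card_insert_of_notMem n1]
      refine congrArg (· + 2) ?_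
      congr!
    omega
  set A : Finset ℂ := S.filter (fun x => ReflTransGen T a x) with hA
  have haA : a ∈ A := by simp [hA, ha, ReflTransGen.refl]
  have hbA : b ∉ A := by simp only [hA, Finset.mem_filter, not_and]; exact fun _ => hnb
  have hAS : A ⊆ S := Finset.filter_subset _ _
  have hsum : ∑ c ∈ A, ∑ q ∈ S, φ c q = 0 :=
    Finset.sum_eq_zero fun c hc' => hcirc c (hAS hc')
  have hAA : ∑ c ∈ A, ∑ q ∈ A, φ c q = 0 := by
    have h1 : ∑ c ∈ A, ∑ q ∈ A, φ c q = ∑ c ∈ A, ∑ q ∈ A, φ q c := Finset.sum_comm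
    have h2 : ∑ c ∈ A, ∑ q ∈ A, φ q c = -∑ c ∈ A, ∑ q ∈ A, φ c q := by
      rw [← Finset.sum_neg_distrib]
      refine Finset.sum_congr rfl fun c _ => ?_
      rw [← Finset.sum_neg_distrib]
      exact Finset.sum_congr rfl fun q _ => hφ c q
    linarith
  have hout : ∑ c ∈ A, ∑ q ∈ S \ A, φ c q = φ a b := by
    rw [Finset.sum_eq_single a]
    · rw [Finset.sum_eq_single b]
      · intro q hq hqb
        by_contra h0
        have hq' := Finset.mem_sdiff.1 hq
        have hk := hsup a ha q hq'.1 h0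
        exact hq'.2 (by
          simp only [hA, Finset.mem_filter]
          exact ⟨hq'.1, ReflTransGen.single ⟨ha, hq'.1, hk, fun h => hqb h.2, fun h => hne h.1⟩⟩)
      · intro h
        exact absurd (Finset.mem_sdiff.2 ⟨hb, hbA⟩) h
    · intro c hc' hca
      refine Finset.sum_eq_zero fun q hq => ?_
      by_contra h0
      have hq' := Finset.mem_sdiff.1 hq
      have hcS := hAS hc'
      have hk := hsup c hcS q hq'.1 h0
      have hcr : ReflTransGen T a c := (Finset.mem_filter.1 hc').2
      have hcb : c ≠ b := fun h => hbA (h ▸ hc')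
      exact hq'.2 (by
        simp only [hA, Finset.mem_filter]
        exact ⟨hq'.1, hcr.tail ⟨hcS, hq'.1, hk, fun h => hca h.1, fun h => hcb h.1⟩⟩)
    · intro h
      exact absurd haA h
  have hsplit : ∑ c ∈ A, ∑ q ∈ S, φ c q
      = ∑ c ∈ A, ∑ q ∈ S \ A, φ c q + ∑ c ∈ A, ∑ q ∈ A, φ c q := by
    rw [← Finset.sum_add_distrib]
    refine Finset.sum_congr rfl fun c _ => ?_
    rw [Finset.sum_sdiff hAS]
  rw [hsplit, hout, hAA, add_zero] at hsum
  exact hab hsum

end FT58.AS.H37
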